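import Pool.Agent.W_MP_a3c811_h79.MF.Final2

/-! A numerical criterion for weight monodromy and for the independence of `l` of Euler factors. -/

namespace Pool.Agent.W_MP_a3c811_h79.Old.LaplaceCriterion

open Polynomial Pool.Agent.WeilH_h6 Pool.Agent.WeilH_h6.VarClass Pool.Agent.H62A
  Pool.Agent.H62S

universe u v w

/-- Let `W l` be a compatible family of Weil cohomology theories and `X` the strata of the special
fibre of a semistable degeneration, with restrictions, Gysin maps, a Lefschetz operator `L` and its
dual `Lam`, all given by cycles which do not depend on `l` (for `Lam` this is the Lefschetz standard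
conjecture for the strata).  The `E_1`-term of the weight spectral sequence carries the monodromy
operator `N` with its dual `f`, and the Laplacian `Δ = d d' + d' d` with `d' = [f, [Lam, d]]`.  Then
the characteristic polynomial `χ` of `Δ` is rational and does not depend on `l`; the Betti number of
the `E_2`-term is at most the multiplicity `m` of the root `0` of `χ`, with equality if the strata are
anisotropic in the theory `l`; and if it is equal to `m`, then for all realisations of motives
computed by the `E_1`-term weight monodromy holds for all `l`, and the characteristic polynomials of
Frobenius on `V^w` and on its inertia invariants are rational and do not depend on `l`. -/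
theorem result (k : Type u) [Field k] (𝒱 : VarClass k) (I : Type) (K : I → Type v)
    [∀ l, Field (K l)] [∀ l, CharZero (K l)] (W : ∀ l, Weil.{u, v, w} 𝒱 (K l))
    (hW : Compatible W) (X : Strata W) :
    ∃ χ : ℚ[X], (∀ l, TCharpoly (W l) X.EY (X.laplacian l) χ) ∧
      (∀ l, X.betti l ≤ χ.rootMultiplicity 0) ∧
      (∀ l, X.Anisotropic l → X.betti l = χ.rootMultiplicity 0) ∧
      ((∀ l, X.betti l = χ.rootMultiplicity 0) →
        ∀ M : X.Motive, (∀ l, M.WeightMonodromy l) ∧ M.Independence) :=
  final2 hW X

end Pool.Agent.W_MP_a3c811_h79.Old.LaplaceCriterion
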