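import Pool.Agent.W_MP_a3c811_h79.MF.TrS
import Pool.Agent.W_a3c811_h62w.TrK

/-! Weight monodromy in the middle degree in one theory implies weight monodromy and independence of
`l` in all degrees and all theories. -/

namespace Pool.Agent.W_MP_a3c811_h79.Old.OneTheory

open Pool.Agent.WeilH_h6 Pool.Agent.WeilH_h6.VarClass Pool.Agent.H62A Pool.Agent.H62S

universe u v w

/-- Let `W l` be a compatible family of Weil cohomology theories and `X` the strata of the special
fibre of a semistable degeneration of varieties of dimension `n`, with restrictions, Gysin maps, a
Lefschetz operator `L` and its dual `Lam`, all given by cycles which do not depend on `l` (for `Lam`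
this is the Lefschetz standard conjecture for the strata), such that the Betti number of the
`E_2`-term does not depend on `l`.  Suppose that for ONE theory `l0` the hard Lefschetz theorem holds
for the `E_2`-term (a theorem of Deligne), weight monodromy holds for the `E_2`-term in the middle
degree `n`, and the primitive parts `(i, j)` with `i ≥ 1` and `j ≥ 1` are good with respect to a set
`G` of endomorphisms of the cohomology of the strata which respect levels and degrees and commute
with the restrictions, the Gysin maps and `L` (powers of Frobenius, automorphisms, monodromy of a
family of special fibres).  For `n ≤ 3` these are parts of `H^0` and `H^1`, which are good by a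
theorem of Weil, for `n = 4` only the primitive part of `H^2` of the double threefolds is not of this
kind.  Then for ALL `l` weight monodromy holds in all degrees for all realisations of motives computed
by the `E_1`-term, and the characteristic polynomials of Frobenius on `V^w` and on its inertia
invariants are rational and do not depend on `l`. -/
theorem result (k : Type u) [Field k] (𝒱 : VarClass k) (I : Type) (K : I → Type v)
    [∀ l, Field (K l)] [∀ l, CharZero (K l)] (W : ∀ l, Weil.{u, v, w} 𝒱 (K l))
    (hW : Compatible W) (X : Strata W) (hb : ∀ l l', X.dimE2 l = X.dimE2 l') (l0 : I)
    (hL : X.HardLefschetz l0) (hN : ∀ i : ℕ, X.MonoAt l0 X.n i) (G : Set (TEnd (W l0) X.Y))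
    (hG : X.CompatibleWith l0 G)
    (hE : ∀ i j, 1 ≤ i → 1 ≤ j → i + j ≤ X.n → X.Good l0 G i j) (M : X.Motive) :
    (∀ l, M.WeightMonodromy l) ∧ M.Independence := by
  classical
  exact Strata.all_T2 hW X hb l0 hL hN (Strata.yring_sring hW hG.com)
    (fun i j hi hj hij => Strata.gd_goodS hW hG (hE i j hi hj hij)) M

end Pool.Agent.W_MP_a3c811_h79.Old.OneTheory
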